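import Mathlib

/-! Expansion of the trace of a power of a band matrix as a sum over closed paths. -/

set_option autoImplicit false

namespace Pool.Agent.H84_zeta
open Finset

/-- weight of a path starting at `x` with steps `j` -/
noncomputable def pw (g c : ℤ → ℂ) {m : ℕ} (j : Fin m → ℤ) (x : ℤ) : ℂ :=
  (∏ i : Fin m, g (x + ∑ l ∈ Finset.Iio i, j l)) * ∏ i : Fin m, c (j i)

/-- sum over paths with `m` steps (each of size at most `M`) from `x` to `y` -/
noncomputable def G (g c : ℤ → ℂ) (M : ℕ) (m : ℕ) (x y : ℤ) : ℂ :=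
  ∑ j ∈ Fintype.piFinset (fun _ : Fin m => Finset.Icc (-(M : ℤ)) M),
    if ∑ i, j i = y - x then pw g c j x else 0

lemma sum_Iio_succ {m : ℕ} (a : ℤ) (j : Fin m → ℤ) (i : Fin m) :
    ∑ l ∈ Finset.Iio i.succ, (Fin.cons a j : Fin (m + 1) → ℤ) l
      = a + ∑ l ∈ Finset.Iio i, j l := by
  have h : Finset.Iio i.succ = insert 0 ((Finset.Iio i).map (Fin.succEmb m)) := by
    ext l
    refine Fin.cases ?_ (fun l' => ?_) l
    · simp
    · simp only [Finset.mem_Iio, Fin.succ_lt_succ_iff, Finset.mem_insert, Finset.mem_map,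
        Fin.coe_succEmb, Fin.succ_inj, exists_eq_right]
      constructor
      · intro h; exact Or.inr h
      · rintro (h | h)
        · exact absurd h (Fin.succ_ne_zero _)
        · exact h
  rw [h, Finset.sum_insert (by simp), Finset.sum_map]
  simp

lemma pw_cons (g c : ℤ → ℂ) {m : ℕ} (a : ℤ) (j : Fin m → ℤ) (x : ℤ) :
    pw g c (Fin.cons a j : Fin (m + 1) → ℤ) x = g x * (c a * pw g c j (x + a)) := by
  unfold pw
  rw [Fin.prod_univ_succ, Fin.prod_univ_succ]
  have h0 : ∑ l ∈ Finset.Iio (0 : Fin (m + 1)), (Fin.cons a j : Fin (m + 1) → ℤ) l = 0 := by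
    have : Finset.Iio (0 : Fin (m + 1)) = ∅ := by
      ext l; simp
    rw [this, Finset.sum_empty]
  rw [h0]
  simp only [sum_Iio_succ, Fin.cons_zero, Fin.cons_succ, add_zero, ← add_assoc]
  ring

lemma G_zero (g c : ℤ → ℂ) (M : ℕ) (x y : ℤ) : G g c M 0 x y = if x = y then 1 else 0 := by
  unfold G pw
  simp only [Finset.univ_eq_empty, Finset.prod_empty, Finset.sum_empty, mul_one]
  rw [show (Fintype.piFinset fun _ : Fin 0 => Finset.Icc (-(M : ℤ)) M) = {default} from by
    ext j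
    simp only [Fintype.mem_piFinset, Finset.mem_singleton]
    exact ⟨fun _ => Subsingleton.elim _ _, fun _ i => i.elim0⟩, Finset.sum_singleton]
  by_cases h : x = y
  · simp [h]
  · rw [if_neg h, if_neg]
    intro h'; apply h; linarith

lemma G_succ (g c : ℤ → ℂ) (M m : ℕ) (x y : ℤ) :
    G g c M (m + 1) x y
      = g x * ∑ a ∈ Finset.Icc (-(M : ℤ)) M, c a * G g c M m (x + a) y := by
  unfold G
  rw [Finset.mul_sum]
  simp_rw [Finset.mul_sum]
  rw [← Finset.sum_product']
  symm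
  refine Finset.sum_nbij' (fun p => (Fin.cons p.1 p.2 : Fin (m + 1) → ℤ))
    (fun j => (j 0, Fin.tail j)) ?_ ?_ ?_ ?_ ?_
  · rintro ⟨a, j⟩ h
    simp only [Finset.mem_product, Fintype.mem_piFinset] at h ⊢
    intro i
    refine Fin.cases ?_ (fun i' => ?_) i
    · simpa using h.1
    · simpa using h.2 i'
  · intro j h
    simp only [Finset.mem_product, Fintype.mem_piFinset] at h ⊢
    exact ⟨h 0, fun i => h i.succ⟩
  · rintro ⟨a, j⟩ _
    simp
  · intro j _
    simp
  · rintro ⟨a, j⟩ _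
    simp only [Fin.sum_univ_succ, Fin.cons_zero, Fin.cons_succ, pw_cons]
    by_cases h : ∑ i, j i = y - (x + a)
    · rw [if_pos h, if_pos (by rw [h]; ring)]
    · rw [if_neg h, if_neg (by intro h'; apply h; linarith)]
      simp

/-- window index type -/
abbrev Win (L : ℕ) := {x : ℤ // x ∈ Finset.Icc (-(L : ℤ)) L}

/-- the band matrix on the window -/
noncomputable def mat (L : ℕ) (g c : ℤ → ℂ) : Matrix (Win L) (Win L) ℂ :=
  fun x y => g x.1 * c (y.1 - x.1)

lemma G_out (g c : ℤ → ℂ) (M L m : ℕ) (hg : ∀ x : ℤ, x ∉ Finset.Icc (-(L : ℤ)) L → g x = 0)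
    (x y : ℤ) (hx : x ∉ Finset.Icc (-(L : ℤ)) L) (hy : y ∈ Finset.Icc (-(L : ℤ)) L) :
    G g c M m x y = 0 := by
  cases m with
  | zero =>
    rw [G_zero, if_neg]
    rintro rfl; exact hx hy
  | succ m => rw [G_succ, hg x hx, zero_mul]

theorem mat_pow (L : ℕ) (g c : ℤ → ℂ) (M : ℕ)
    (hg : ∀ x : ℤ, x ∉ Finset.Icc (-(L : ℤ)) L → g x = 0)
    (hc : ∀ a : ℤ, a ∉ Finset.Icc (-(M : ℤ)) M → c a = 0) (m : ℕ) (x y : Win L) :
    (mat L g c ^ m) x y = G g c M m x.1 y.1 := by
  induction m generalizing x with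
  | zero =>
    rw [pow_zero, G_zero, Matrix.one_apply]
    simp only [Subtype.ext_iff]
  | succ m ih =>
    rw [pow_succ', Matrix.mul_apply, G_succ]
    simp_rw [ih]
    simp only [mat, mul_assoc]
    rw [← Finset.mul_sum]
    congr 1
    -- both sides are sums of the same finitely supported function
    set h : ℤ → ℂ := fun z => c (z - x.1) * G g c M m z y.1 with hh
    have h1 : ∑ z : Win L, h z.1 = ∑ᶠ z : ℤ, h z := by
      rw [finsum_eq_sum_of_support_subset (s := Finset.Icc (-(L : ℤ)) L)]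
      · exact Finset.sum_coe_sort (Finset.Icc (-(L : ℤ)) L) h
      · intro z hz
        by_contra hz'
        apply hz
        have hz'' : z ∉ Finset.Icc (-(L : ℤ)) L := hz'
        simp only [hh]
        rw [G_out g c M L m hg z y.1 hz'' y.2, mul_zero]
    have h2 : ∑ a ∈ Finset.Icc (-(M : ℤ)) M, c a * G g c M m (x.1 + a) y.1
        = ∑ᶠ z : ℤ, h z := by
      have h3 : ∑ᶠ z : ℤ, h z = ∑ᶠ a : ℤ, h (x.1 + a) :=
        (finsum_comp_equiv (Equiv.addLeft x.1)).symm
      rw [h3, finsum_eq_sum_of_support_subset (s := Finset.Icc (-(M : ℤ)) M)]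
      · refine Finset.sum_congr rfl fun a _ => ?_
        simp only [hh, add_sub_cancel_left]
      · intro a ha
        by_contra ha'
        apply ha
        have ha'' : a ∉ Finset.Icc (-(M : ℤ)) M := ha'
        simp only [hh, add_sub_cancel_left]
        rw [hc a ha'', zero_mul]
    rw [h2, ← h1]

theorem trace_pow (L : ℕ) (g c : ℤ → ℂ) (M : ℕ)
    (hg : ∀ x : ℤ, x ∉ Finset.Icc (-(L : ℤ)) L → g x = 0)
    (hc : ∀ a : ℤ, a ∉ Finset.Icc (-(M : ℤ)) M → c a = 0) (m : ℕ) :
    (mat L g c ^ m).trace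
      = ∑ j ∈ Fintype.piFinset (fun _ : Fin m => Finset.Icc (-(M : ℤ)) M),
          if ∑ i, j i = 0 then
            (∑ x ∈ Finset.Icc (-(L : ℤ)) L, ∏ i : Fin m, g (x + ∑ l ∈ Finset.Iio i, j l))
              * ∏ i : Fin m, c (j i)
          else 0 := by
  rw [Matrix.trace]
  simp only [Matrix.diag_apply, mat_pow L g c M hg hc, G]
  rw [Finset.sum_coe_sort (Finset.Icc (-(L : ℤ)) L) (fun x =>
    ∑ j ∈ Fintype.piFinset (fun _ : Fin m => Finset.Icc (-(M : ℤ)) M),
      if ∑ i, j i = x - x then pw g c j x else 0)]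
  rw [Finset.sum_comm]
  refine Finset.sum_congr rfl fun j _ => ?_
  by_cases h : ∑ i, j i = 0
  · rw [if_pos h, Finset.sum_mul]
    refine Finset.sum_congr rfl fun x _ => ?_
    rw [if_pos (by rw [h]; ring)]
    rfl
  · rw [if_neg h]
    refine Finset.sum_eq_zero fun x _ => ?_
    rw [if_neg (by rw [sub_self]; exact h)]

end Pool.Agent.H84_zeta
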