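import Mathlib

/-! Trace inequality: for a Hermitian matrix `B` and a diagonal signature `S`,
`Tr B^{2k} - Tr (B S)^{2k} ≥ 0`.  Proof by Cauchy-Schwarz (chessboard estimate) on words in `B`
and `C = S B S`. -/

set_option autoImplicit false

namespace Pool.Agent.H84_zeta
open Matrix
open scoped ComplexOrder

variable {ι : Type*} [Fintype ι] [DecidableEq ι]

omit [DecidableEq ι] in
lemma trace_mul_conj (U : Matrix ι ι ℂ) :
    (U * Uᴴ).trace.re = ∑ p : ι × ι, ‖U p.1 p.2‖ ^ 2 := by
  rw [Matrix.trace, Complex.re_sum, Fintype.sum_prod_type]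
  refine Finset.sum_congr rfl fun i _ => ?_
  rw [Matrix.diag_apply, Matrix.mul_apply, Complex.re_sum]
  refine Finset.sum_congr rfl fun j _ => ?_
  rw [Matrix.conjTranspose_apply, Complex.star_def, Complex.mul_conj, Complex.ofReal_re,
    Complex.normSq_eq_norm_sq]

lemma cs (U V : Matrix ι ι ℂ) :
    ‖(U * V).trace‖ ^ 2 ≤ (U * Uᴴ).trace.re * (Vᴴ * V).trace.re := by
  have hV : (Vᴴ * V).trace.re = ∑ p : ι × ι, ‖V p.2 p.1‖ ^ 2 := by
    rw [Matrix.trace_mul_comm, trace_mul_conj]
    rw [Fintype.sum_prod_type, Fintype.sum_prod_type, Finset.sum_comm]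
  rw [hV, trace_mul_conj]
  have h1 : ‖(U * V).trace‖ ≤ ∑ p : ι × ι, ‖U p.1 p.2‖ * ‖V p.2 p.1‖ := by
    have : (U * V).trace = ∑ p : ι × ι, U p.1 p.2 * V p.2 p.1 := by
      rw [Matrix.trace, Fintype.sum_prod_type]
      refine Finset.sum_congr rfl fun i _ => ?_
      rw [Matrix.diag_apply, Matrix.mul_apply]
    rw [this]
    refine (norm_sum_le _ _).trans (le_of_eq ?_)
    refine Finset.sum_congr rfl fun p _ => ?_
    rw [norm_mul]
  calc ‖(U * V).trace‖ ^ 2 ≤ (∑ p : ι × ι, ‖U p.1 p.2‖ * ‖V p.2 p.1‖) ^ 2 := by
        gcongr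
    _ ≤ _ := Finset.sum_mul_sq_le_sq_mul_sq _ _ _

/-- product of a word in `B` (for `true`) and `C` (for `false`) -/
def wm (B C : Matrix ι ι ℂ) (w : List Bool) : Matrix ι ι ℂ :=
  (w.map (fun b => if b then B else C)).prod

lemma wm_append (B C : Matrix ι ι ℂ) (u v : List Bool) :
    wm B C (u ++ v) = wm B C u * wm B C v := by
  simp [wm]

lemma wm_reverse {B C : Matrix ι ι ℂ} (hB : B.IsHermitian) (hC : C.IsHermitian)
    (w : List Bool) : wm B C w.reverse = (wm B C w)ᴴ := by
  induction w with
  | nil => simp [wm]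
  | cons b w ih =>
    have h2 : wm B C (b :: w) = (if b then B else C) * wm B C w := by simp [wm]
    have h3 : wm B C [b] = (if b then B else C) := by simp [wm]
    rw [List.reverse_cons, wm_append, ih, h2, Matrix.conjTranspose_mul, h3]
    congr 1
    cases b
    · simpa using hC.eq.symm
    · simpa using hB.eq.symm

lemma wm_rot (B C : Matrix ι ι ℂ) (u v : List Bool) :
    (wm B C (u ++ v)).trace = (wm B C (v ++ u)).trace := by
  rw [wm_append, wm_append, Matrix.trace_mul_comm]

theorem word_bound {B C : Matrix ι ι ℂ} (hB : B.IsHermitian) (hC : C.IsHermitian)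
    (k : ℕ) (hk : 1 ≤ k) (T : ℝ) (hT : 0 ≤ T) (hTB : (B ^ (2 * k)).trace.re ≤ T)
    (hTC : (C ^ (2 * k)).trace.re ≤ T) :
    ∀ w : List Bool, w.length = 2 * k → ‖(wm B C w).trace‖ ≤ T := by
  classical
  set f : List Bool → ℝ := fun w => ‖(wm B C w).trace‖ with hf
  have hfin : {w : List Bool | w.length = 2 * k}.Finite := List.finite_length_eq Bool (2 * k)
  have hne : {w : List Bool | w.length = 2 * k}.Nonempty := ⟨List.replicate (2 * k) true, by simp⟩
  obtain ⟨w0, hw0, hmax⟩ := Set.exists_max_image _ f hfin hne
  set M := f w0 with hM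
  have hmax' : ∀ w : List Bool, w.length = 2 * k → f w ≤ M := fun w hw => hmax w hw
  have hM0 : 0 ≤ M := norm_nonneg _
  suffices hMT : M ≤ T from fun w hw => (hmax' w hw).trans hMT
  rcases hM0.eq_or_lt with hM0' | hMpos
  · rw [← hM0']; exact hT
  -- Cauchy-Schwarz on words
  have hcs : ∀ u v : List Bool, f (u ++ v) ^ 2 ≤ f (u ++ u.reverse) * f (v.reverse ++ v) := by
    intro u v
    have h1 := cs (wm B C u) (wm B C v)
    rw [← wm_reverse hB hC, ← wm_reverse hB hC, ← wm_append, ← wm_append, ← wm_append] at h1
    refine h1.trans ?_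
    have ha : (wm B C (u ++ u.reverse)).trace.re ≤ f (u ++ u.reverse) := Complex.re_le_norm _
    have hb : (wm B C (v.reverse ++ v)).trace.re ≤ f (v.reverse ++ v) := Complex.re_le_norm _
    have ha0 : 0 ≤ (wm B C (u ++ u.reverse)).trace.re := by
      rw [wm_append, wm_reverse hB hC, trace_mul_conj]
      positivity
    exact mul_le_mul ha hb (by
      rw [wm_append, wm_reverse hB hC, Matrix.trace_mul_comm, trace_mul_conj]
      positivity) (ha0.trans ha)
  let P : ℕ → Prop := fun r => ∃ (L : Bool) (v : List Bool), v.length + r = 2 * k ∧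
    f (List.replicate r L ++ v) = M
  have hdown : ∀ r s : ℕ, s ≤ r → P r → P s := by
    rintro r s hsr ⟨L, v, hv, hfv⟩
    refine ⟨L, List.replicate (r - s) L ++ v, ?_, ?_⟩
    · simp only [List.length_append, List.length_replicate]; omega
    · rw [← List.append_assoc, List.replicate_append_replicate, Nat.add_sub_cancel' hsr, hfv]
  have hstep : ∀ r : ℕ, r ≤ k → P r → P (2 * r) := by
    rintro r hr ⟨L, v, hv, hfv⟩
    set v1 := v.take k with hv1
    set v2 := v.drop k with hv2
    have hvv : v1 ++ v2 = v := List.take_append_drop k v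
    have hl1 : v1.length = k := by rw [hv1, List.length_take]; omega
    have hl2 : v2.length = k - r := by rw [hv2, List.length_drop]; omega
    have hrot : f ((v2 ++ List.replicate r L) ++ v1) = M := by
      have : f ((v2 ++ List.replicate r L) ++ v1) = f ((List.replicate r L ++ v1) ++ v2) := by
        simp only [hf]
        rw [List.append_assoc, wm_rot]
      rw [this, List.append_assoc, hvv, hfv]
    have h1 := hcs (v2 ++ List.replicate r L) v1
    rw [hrot] at h1
    have h2 : f (v1.reverse ++ v1) ≤ M := hmax' _ (by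
      simp only [List.length_append, List.length_reverse]; omega)
    set X := (v2 ++ List.replicate r L) ++ (v2 ++ List.replicate r L).reverse with hX
    have hXl : X.length = 2 * k := by
      simp only [hX, List.length_append, List.length_reverse, List.length_replicate]; omega
    have h3 : f X ≤ M := hmax' _ hXl
    have h4 : M ≤ f X := by
      have h5 : M ^ 2 ≤ f X * M := h1.trans (mul_le_mul_of_nonneg_left h2 (norm_nonneg _))
      nlinarith
    refine ⟨L, v2.reverse ++ v2, ?_, ?_⟩
    · simp only [List.length_append, List.length_reverse]; omega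
    · have h6 : f (List.replicate (2 * r) L ++ (v2.reverse ++ v2)) = f X := by
        simp only [hf]
        have : X = v2 ++ (List.replicate (2 * r) L ++ v2.reverse) := by
          rw [hX, List.reverse_append, List.reverse_replicate, two_mul]
          simp only [List.append_assoc]
          rw [← List.append_assoc (List.replicate r L), List.replicate_append_replicate]
        rw [this, wm_rot B C v2, List.append_assoc]
      rw [h6]; exact le_antisymm h3 h4
  have hP1 : P 1 := by
    have hl0 : w0.length = 2 * k := hw0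
    cases hw : w0 with
    | nil => rw [hw] at hl0; simp at hl0; omega
    | cons b t =>
      refine ⟨b, t, ?_, ?_⟩
      · rw [hw] at hl0; simpa using hl0
      · rw [hM, hw]; rfl
  have hPj : ∀ j : ℕ, P (min (2 ^ j) k) := by
    intro j
    induction j with
    | zero => exact hdown 1 _ (by simp) hP1
    | succ j ih =>
      refine hdown _ _ ?_ (hstep _ (min_le_right _ _) ih)
      rw [pow_succ]
      omega
  have hPk : P k := by
    have := hPj k
    rwa [min_eq_right (Nat.lt_two_pow_self).le] at this
  obtain ⟨L, v, hv, hfv⟩ := hPk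
  have h1 := cs (wm B C (List.replicate k L)) (wm B C v)
  rw [← wm_append] at h1
  have h2 : ‖(wm B C (List.replicate k L ++ v)).trace‖ = M := hfv
  rw [h2] at h1
  have h3 : ((wm B C v)ᴴ * wm B C v).trace.re ≤ M := by
    rw [← wm_reverse hB hC, ← wm_append]
    exact (Complex.re_le_norm _).trans (hmax' _ (by
      simp only [List.length_append, List.length_reverse]; omega))
  have h4 : (wm B C (List.replicate k L) * (wm B C (List.replicate k L))ᴴ).trace.re ≤ T := by
    rw [← wm_reverse hB hC, ← wm_append, List.reverse_replicate,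
      List.replicate_append_replicate, ← two_mul]
    cases L
    · simpa [wm] using hTC
    · simpa [wm] using hTB
  have h5 : 0 ≤ ((wm B C v)ᴴ * wm B C v).trace.re := by
    rw [Matrix.trace_mul_comm, trace_mul_conj]; positivity
  have h6 : M ^ 2 ≤ T * M := h1.trans (mul_le_mul h4 h3 h5 hT)
  nlinarith

/-- the trace inequality -/
theorem trace_ineq {B S : Matrix ι ι ℂ} (hB : B.IsHermitian) (hS : S.IsHermitian)
    (hSS : S * S = 1) (k : ℕ) (hk : 1 ≤ k) :
    0 ≤ (B ^ (2 * k)).trace - ((B * S) ^ (2 * k)).trace := by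
  set C := S * B * S with hC
  have hCh : C.IsHermitian := by
    rw [Matrix.IsHermitian, hC, Matrix.conjTranspose_mul, Matrix.conjTranspose_mul, hS.eq, hB.eq,
      Matrix.mul_assoc]
  have hCn : ∀ n : ℕ, C ^ n = S * B ^ n * S := by
    intro n
    induction n with
    | zero => simp [hSS]
    | succ n ih =>
      rw [pow_succ, ih, hC, pow_succ]
      calc S * B ^ n * S * (S * B * S) = S * B ^ n * (S * S) * B * S := by
            simp only [Matrix.mul_assoc]
        _ = _ := by rw [hSS]; simp only [Matrix.mul_one, Matrix.mul_assoc]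
  have hCt : ∀ n : ℕ, (C ^ n).trace = (B ^ n).trace := by
    intro n
    rw [hCn, Matrix.trace_mul_comm, ← Matrix.mul_assoc, hSS, Matrix.one_mul]
  have hBreal : (B ^ (2 * k)).trace.im = 0 := by
    have h1 : (B ^ (2 * k)).IsHermitian := hB.pow _
    have h2 : star (B ^ (2 * k)).trace = (B ^ (2 * k)).trace := by
      rw [← Matrix.trace_conjTranspose, h1.eq]
    have h3 := congrArg Complex.im h2
    simp at h3
    linarith
  have hBSreal : ((B * S) ^ (2 * k)).trace.im = 0 := by
    have h2 : star ((B * S) ^ (2 * k)).trace = ((B * S) ^ (2 * k)).trace := by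
      rw [← Matrix.trace_conjTranspose, Matrix.conjTranspose_pow, Matrix.conjTranspose_mul,
        hS.eq, hB.eq]
      -- trace (S B)^n = trace (B S)^n
      obtain ⟨n, hn⟩ : ∃ n, 2 * k = n + 1 := ⟨2 * k - 1, by omega⟩
      rw [hn]
      have hsemi : SemiconjBy S (B * S) (S * B) := by
        simp only [SemiconjBy, Matrix.mul_assoc]
      have := hsemi.pow_right n
      calc ((S * B) ^ (n + 1)).trace = ((S * B) ^ n * S * B).trace := by
            rw [pow_succ, Matrix.mul_assoc]
        _ = (S * (B * S) ^ n * B).trace := by rw [this.eq]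
        _ = (B * (S * (B * S) ^ n)).trace := by rw [Matrix.trace_mul_comm]
        _ = ((B * S) ^ (n + 1)).trace := by rw [← Matrix.mul_assoc, pow_succ']
    have h3 := congrArg Complex.im h2
    simp at h3
    linarith
  have hT0 : 0 ≤ (B ^ (2 * k)).trace.re := by
    have h1 : (B ^ k)ᴴ = B ^ k := (hB.pow k).eq
    have h2 := trace_mul_conj (B ^ k)
    rw [h1, ← pow_add, ← two_mul] at h2
    rw [h2]; positivity
  have hmain : ‖((B * S) ^ (2 * k)).trace‖ ≤ (B ^ (2 * k)).trace.re := by
    have hw : (B * S) ^ (2 * k) = wm B C (List.replicate k [true, false]).flatten := by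
      have h1 : ∀ m : ℕ, wm B C (List.replicate m [true, false]).flatten = (B * C) ^ m := by
        intro m
        induction m with
        | zero => simp [wm]
        | succ m ih =>
          rw [List.replicate_succ, List.flatten_cons, wm_append, ih, pow_succ']
          simp [wm]
      rw [h1, pow_mul]
      congr 1
      rw [pow_two, hC]
      simp only [Matrix.mul_assoc]
    rw [hw]
    refine word_bound hB hCh k hk _ hT0 le_rfl ?_ _ ?_
    · rw [hCt]
    · simp [mul_comm]
  rw [Complex.nonneg_iff]
  constructor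
  · rw [Complex.sub_re]
    have := Complex.re_le_norm ((B * S) ^ (2 * k)).trace
    linarith
  · rw [Complex.sub_im, hBreal, hBSreal, sub_zero]

end Pool.Agent.H84_zeta
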