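import Mathlib
import Pool.Agent.H84_zeta.Trace
import Pool.Agent.H84_zeta.Path

/-! Nonnegativity of the truncated zeta-invariants. -/

set_option autoImplicit false

namespace Pool.Agent.H84_zeta
open Finset
open scoped ComplexOrder

/-- the product `f_j(n)` -/
def fj {m : ℕ} (j : Fin m → ℤ) (n : ℤ) : ℤ := ∏ i : Fin m, (n + ∑ l ∈ Finset.Iio i, j l)

lemma abs_partial {m M : ℕ} (j : Fin m → ℤ) (hj : ∀ i, j i ∈ Finset.Icc (-(M : ℤ)) M)
    (i : Fin m) : |∑ l ∈ Finset.Iio i, j l| ≤ (m * M : ℕ) := by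
  calc |∑ l ∈ Finset.Iio i, j l| ≤ ∑ l ∈ Finset.Iio i, |j l| := Finset.abs_sum_le_sum_abs _ _
    _ ≤ ∑ l ∈ Finset.Iio i, (M : ℤ) := by
        refine Finset.sum_le_sum fun l _ => ?_
        have := hj l
        rw [Finset.mem_Icc] at this
        exact abs_le.2 this
    _ = ((Finset.Iio i).card : ℤ) * M := by rw [Finset.sum_const, nsmul_eq_mul]
    _ ≤ (m * M : ℕ) := by
        push_cast
        refine mul_le_mul_of_nonneg_right ?_ (by positivity)
        have : (Finset.Iio i).card ≤ m := by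
          simp
        exact_mod_cast this

lemma fj_nonneg {k M : ℕ} (j : Fin (2 * k) → ℤ) (hj : ∀ i, j i ∈ Finset.Icc (-(M : ℤ)) M)
    (n : ℤ) (hn : n ∉ Finset.Icc (-((2 * k * M : ℕ) : ℤ)) ((2 * k * M : ℕ) : ℤ)) :
    0 ≤ fj j n := by
  rw [Finset.mem_Icc, not_and_or, not_le, not_le] at hn
  unfold fj
  rcases hn with h | h
  · have h1 : ∏ i : Fin (2 * k), (n + ∑ l ∈ Finset.Iio i, j l)
        = ∏ i : Fin (2 * k), (-1) * (-(n + ∑ l ∈ Finset.Iio i, j l)) := by
      refine Finset.prod_congr rfl fun i _ => by ring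
    rw [h1, Finset.prod_mul_distrib, Finset.prod_const, Finset.card_univ, Fintype.card_fin,
      pow_mul]
    norm_num
    refine Finset.prod_nonneg fun i _ => ?_
    have := abs_le.1 (abs_partial j hj i)
    linarith [this.1, this.2]
  · refine Finset.prod_nonneg fun i _ => ?_
    have := abs_le.1 (abs_partial j hj i)
    linarith [this.1, this.2]

/-- restricted weights -/
noncomputable def g1 (L : ℕ) (x : ℤ) : ℂ := if x ∈ Finset.Icc (-(L : ℤ)) L then ((|x| : ℤ) : ℂ) else 0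
noncomputable def g2 (L : ℕ) (x : ℤ) : ℂ := if x ∈ Finset.Icc (-(L : ℤ)) L then (x : ℂ) else 0

lemma Nj_window {k M : ℕ} (hk : 1 ≤ k) (j : Fin (2 * k) → ℤ)
    (hj : ∀ i, j i ∈ Finset.Icc (-(M : ℤ)) M) :
    (((∑ᶠ n : ℤ, (|fj j n| - fj j n)) : ℤ) : ℂ)
      = (∑ x ∈ Finset.Icc (-((2 * (2 * k * M) : ℕ) : ℤ)) ((2 * (2 * k * M) : ℕ) : ℤ),
          ∏ i : Fin (2 * k), g1 (2 * (2 * k * M)) (x + ∑ l ∈ Finset.Iio i, j l))
        - ∑ x ∈ Finset.Icc (-((2 * (2 * k * M) : ℕ) : ℤ)) ((2 * (2 * k * M) : ℕ) : ℤ),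
          ∏ i : Fin (2 * k), g2 (2 * (2 * k * M)) (x + ∑ l ∈ Finset.Iio i, j l) := by
  set L := 2 * (2 * k * M) with hL
  have hLM : (L : ℤ) = 2 * ((2 * k * M : ℕ) : ℤ) := by rw [hL]; push_cast; ring
  have hMnn : (0 : ℤ) ≤ ((2 * k * M : ℕ) : ℤ) := by positivity
  have hzero : ∀ n : ℤ, n ∉ Finset.Icc (-((2 * k * M : ℕ) : ℤ)) ((2 * k * M : ℕ) : ℤ) →
      |fj j n| - fj j n = 0 := by
    intro n hn
    rw [abs_of_nonneg (fj_nonneg j hj n hn), sub_self]
  rw [finsum_eq_sum_of_support_subset (s := Finset.Icc (-(L : ℤ)) L)]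
  · rw [← Finset.sum_sub_distrib]
    push_cast
    refine Finset.sum_congr rfl fun n hn => ?_
    by_cases hall : ∀ i : Fin (2 * k), (n + ∑ l ∈ Finset.Iio i, j l) ∈ Finset.Icc (-(L : ℤ)) L
    · have e1 : ∏ i : Fin (2 * k), g1 L (n + ∑ l ∈ Finset.Iio i, j l)
          = ((|fj j n| : ℤ) : ℂ) := by
        unfold fj
        rw [Finset.abs_prod, Int.cast_prod]
        refine Finset.prod_congr rfl fun i _ => ?_
        unfold g1
        rw [if_pos (hall i)]
      have e2 : ∏ i : Fin (2 * k), g2 L (n + ∑ l ∈ Finset.Iio i, j l)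
          = ((fj j n : ℤ) : ℂ) := by
        unfold fj
        rw [Int.cast_prod]
        refine Finset.prod_congr rfl fun i _ => ?_
        unfold g2
        rw [if_pos (hall i)]
      rw [e1, e2]
    · rw [not_forall] at hall
      obtain ⟨i, hi⟩ := hall
      have e1 : ∏ i : Fin (2 * k), g1 L (n + ∑ l ∈ Finset.Iio i, j l) = 0 := by
        refine Finset.prod_eq_zero (Finset.mem_univ i) ?_
        unfold g1; rw [if_neg hi]
      have e2 : ∏ i : Fin (2 * k), g2 L (n + ∑ l ∈ Finset.Iio i, j l) = 0 := by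
        refine Finset.prod_eq_zero (Finset.mem_univ i) ?_
        unfold g2; rw [if_neg hi]
      rw [e1, e2]
      have h3 : |fj j n| - fj j n = 0 := by
        apply hzero
        rw [Finset.mem_Icc, not_and_or, not_le, not_le] at hi ⊢
        have := abs_le.1 (abs_partial j hj i)
        rcases hi with h | h
        · left; linarith [this.1, this.2]
        · right; linarith [this.1, this.2]
      have h4 : ((|fj j n| : ℤ) : ℂ) - ((fj j n : ℤ) : ℂ) = 0 := by
        rw [← Int.cast_sub, h3, Int.cast_zero]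
      rw [h4, sub_zero]
  · intro n hn
    by_contra hn'
    apply hn
    apply hzero
    intro h
    apply hn'
    have h' := Finset.mem_Icc.1 h
    refine Finset.mem_coe.2 (Finset.mem_Icc.2 ⟨?_, ?_⟩) <;> linarith [h'.1, h'.2]

/-- the matrix with weights `|x|`, `x` and its symmetrisation -/
theorem finite_nonneg (k M : ℕ) (hk : 1 ≤ k) (c : ℤ → ℂ)
    (hc : ∀ a : ℤ, a ∉ Finset.Icc (-(M : ℤ)) M → c a = 0)
    (hcs : ∀ a : ℤ, c (-a) = star (c a)) :
    0 ≤ ∑ j ∈ Fintype.piFinset (fun _ : Fin (2 * k) => Finset.Icc (-(M : ℤ)) M),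
          if ∑ i, j i = 0 then
            (((∑ᶠ n : ℤ, (|fj j n| - fj j n)) : ℤ) : ℂ) * ∏ i, c (j i)
          else 0 := by
  set L := 2 * (2 * k * M) with hL
  have hg1 : ∀ x : ℤ, x ∉ Finset.Icc (-(L : ℤ)) L → g1 L x = 0 := fun x hx => by
    unfold g1; rw [if_neg hx]
  have hg2 : ∀ x : ℤ, x ∉ Finset.Icc (-(L : ℤ)) L → g2 L x = 0 := fun x hx => by
    unfold g2; rw [if_neg hx]
  have h1 := trace_pow L (g1 L) c M hg1 hc (2 * k)
  have h2 := trace_pow L (g2 L) c M hg2 hc (2 * k)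
  have hsum : (∑ j ∈ Fintype.piFinset (fun _ : Fin (2 * k) => Finset.Icc (-(M : ℤ)) M),
          if ∑ i, j i = 0 then
            (((∑ᶠ n : ℤ, (|fj j n| - fj j n)) : ℤ) : ℂ) * ∏ i, c (j i)
          else 0) = (mat L (g1 L) c ^ (2 * k)).trace - (mat L (g2 L) c ^ (2 * k)).trace := by
    rw [h1, h2, ← Finset.sum_sub_distrib]
    refine Finset.sum_congr rfl fun j hj => ?_
    by_cases h : ∑ i, j i = 0
    · rw [if_pos h, if_pos h, if_pos h, ← sub_mul]
      rw [Nj_window hk j (fun i => (Fintype.mem_piFinset.1 hj) i)]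
    · rw [if_neg h, if_neg h, if_neg h, sub_zero]
  rw [hsum]
  -- symmetrisation
  set R : Matrix (Win L) (Win L) ℂ := Matrix.diagonal (fun x => ((Real.sqrt |(x.1 : ℝ)| : ℝ) : ℂ))
    with hR
  set S : Matrix (Win L) (Win L) ℂ := Matrix.diagonal (fun x => if 0 ≤ x.1 then 1 else -1)
    with hS
  set Cm : Matrix (Win L) (Win L) ℂ := fun x y => c (y.1 - x.1) with hCm
  set B := R * Cm * R with hB
  have hRh : R.IsHermitian := by
    rw [hR]
    apply Matrix.isHermitian_diagonal_of_self_adjoint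
    ext x
    simp
  have hSh : S.IsHermitian := by
    rw [hS]
    apply Matrix.isHermitian_diagonal_of_self_adjoint
    ext x
    simp only [Pi.star_apply]
    split_ifs <;> simp
  have hSS : S * S = 1 := by
    rw [hS, Matrix.diagonal_mul_diagonal, ← Matrix.diagonal_one]
    congr 1
    ext x
    split_ifs <;> simp
  have hCh : Cm.IsHermitian := by
    ext x y
    rw [Matrix.conjTranspose_apply]
    simp only [hCm]
    rw [← hcs]
    congr 1
    ring
  have hBh : B.IsHermitian := by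
    rw [Matrix.IsHermitian, hB, Matrix.conjTranspose_mul, Matrix.conjTranspose_mul, hRh.eq, hCh.eq,
      Matrix.mul_assoc]
  have hRR : ∀ x : Win L, ((Real.sqrt |(x.1 : ℝ)| : ℝ) : ℂ) * ((Real.sqrt |(x.1 : ℝ)| : ℝ) : ℂ)
      = ((|x.1| : ℤ) : ℂ) := by
    intro x
    rw [← Complex.ofReal_mul, Real.mul_self_sqrt (abs_nonneg _), ← Int.cast_abs,
      Complex.ofReal_intCast]
  have hM1 : mat L (g1 L) c = R * (R * Cm) := by
    ext x y
    rw [← Matrix.mul_assoc, hR, Matrix.diagonal_mul_diagonal, Matrix.diagonal_mul, hRR]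
    simp only [mat, g1, hCm]
    rw [if_pos x.2]
  have hM2 : mat L (g2 L) c = (S * R) * (R * Cm) := by
    ext x y
    rw [← Matrix.mul_assoc, hR, hS, Matrix.diagonal_mul_diagonal, Matrix.diagonal_mul_diagonal,
      Matrix.diagonal_mul, mul_assoc (if (0 : ℤ) ≤ x.1 then (1 : ℂ) else -1), hRR]
    simp only [mat, g2, hCm]
    rw [if_pos x.2]
    congr 1
    by_cases h : 0 ≤ x.1
    · rw [if_pos h, abs_of_nonneg h, one_mul]
    · rw [if_neg h, abs_of_neg (not_le.1 h)]; push_cast; ring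
  have hcyc : ∀ (X Y : Matrix (Win L) (Win L) ℂ) (n : ℕ), 1 ≤ n →
      ((X * Y) ^ n).trace = ((Y * X) ^ n).trace := by
    intro X Y n hn
    obtain ⟨m, rfl⟩ : ∃ m, n = m + 1 := ⟨n - 1, by omega⟩
    have hsemi : SemiconjBy X (Y * X) (X * Y) := by
      simp only [SemiconjBy, Matrix.mul_assoc]
    have := hsemi.pow_right m
    calc ((X * Y) ^ (m + 1)).trace = ((X * Y) ^ m * X * Y).trace := by
          rw [pow_succ, Matrix.mul_assoc]
      _ = (X * (Y * X) ^ m * Y).trace := by rw [this.eq]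
      _ = (Y * (X * (Y * X) ^ m)).trace := by rw [Matrix.trace_mul_comm]
      _ = ((Y * X) ^ (m + 1)).trace := by rw [← Matrix.mul_assoc, pow_succ']
  have ht1 : (mat L (g1 L) c ^ (2 * k)).trace = (B ^ (2 * k)).trace := by
    rw [hM1, hcyc _ _ _ (by omega)]
  have hSR : S * R = R * S := by
    rw [hS, hR, Matrix.diagonal_mul_diagonal, Matrix.diagonal_mul_diagonal]
    congr 1; ext x; rw [mul_comm]
  have ht2 : (mat L (g2 L) c ^ (2 * k)).trace = ((B * S) ^ (2 * k)).trace := by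
    rw [hM2, hcyc _ _ _ (by omega), hSR, hB, ← Matrix.mul_assoc]
  rw [ht1, ht2]
  exact trace_ineq hBh hSh hSS k hk

end Pool.Agent.H84_zeta
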